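import Pool.Agent.H36.ENR.Stmts2

/-!
# Board enr, row LTE

The exponent of `p` in `q + 1` bounds the order of a field automorphism of `p`-power order.
-/

set_option autoImplicit false

namespace Pool.ENR

theorem lte_thm : LTEStmt := by
  intro F _ _ p a j φ hp hp2 hφ hdvd hnot
  have : Fact p.Prime := ⟨hp⟩
  let G : Subgroup (RingAut F) := Subgroup.zpowers (φ : RingAut F)
  have : Finite (RingAut F) := by
    have : Function.Injective (fun f : RingAut F => (f : F → F)) := DFunLike.coe_injective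
    exact Finite.of_injective _ this
  let _ : Fintype G := Fintype.ofFinite G
  have hfr : Module.finrank (FixedPoints.subfield G F) F = p ^ j := by
    rw [FixedPoints.finrank_eq_card G F, ← Nat.card_eq_fintype_card]
    change Nat.card (Subgroup.zpowers (φ : RingAut F)) = p ^ j
    rw [Nat.card_zpowers]
    exact hφ
  obtain ⟨q₁, hq₁⟩ : ∃ q₁ : ℕ, Nat.card (FixedPoints.subfield G F) = q₁ := ⟨_, rfl⟩
  have hq : Nat.card F = q₁ ^ (p ^ j) := by
    rw [Module.natCard_eq_pow_finrank (K := FixedPoints.subfield G F) (V := F), hfr, hq₁]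
  rw [hq] at hdvd hnot
  have h1 : (p : ℤ) ∣ (q₁ : ℤ) - (-1) := by
    have h2 : ((q₁ ^ (p ^ j) + 1 : ℕ) : ZMod p) = 0 := (ZMod.natCast_eq_zero_iff _ _).2 hdvd
    push_cast at h2
    rw [ZMod.pow_card_pow] at h2
    have h3 : ((q₁ + 1 : ℕ) : ZMod p) = 0 := by push_cast; exact h2
    have h4 : p ∣ q₁ + 1 := (ZMod.natCast_eq_zero_iff _ _).1 h3
    rw [sub_neg_eq_add]
    exact_mod_cast h4
  have h5 := dvd_sub_pow_of_dvd_sub h1 j
  have hodd : Odd (p ^ j) := (hp.odd_of_ne_two hp2).pow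
  rw [hodd.neg_one_pow, sub_neg_eq_add] at h5
  have h6 : p ^ (j + 1) ∣ q₁ ^ (p ^ j) + 1 := by exact_mod_cast h5
  by_contra h7
  exact hnot ((pow_dvd_pow p (by omega)).trans h6)

end Pool.ENR
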