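import Pool.Agent.H14.ENR.Stmts4

/-!
# Board enr, row TOR

The split torus, when `σ` is the product of the conjugation by an antidiagonal matrix and a field automorphism.
-/

set_option autoImplicit false

namespace Pool.ENR

open Pool.Agent.H81.ENG Pool.Agent.H55.NEU

/-- the torus as a homomorphism -/
def torHH (F : Type) [Field F] [Finite F] : Fˣ →* PS F :=
  MonoidHom.mk' (fun t => pr (hh t)) fun s t => by rw [← hh_mul, map_mul]

theorem torHH_apply {F : Type} [Field F] [Finite F] (t : Fˣ) : torHH F t = pr (hh t) := rfl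

theorem torHH_eq {F : Type} [Field F] [Finite F] {s t : Fˣ} (h : torHH F s = torHH F t) :
    (t : F) = s ∨ (t : F) = -s := by
  rw [torHH_apply, torHH_apply, pr_eq_iff] at h
  obtain ⟨r, hr, h1⟩ := h
  have h2 : (t : F) = r * s := h1 0 0
  rcases mul_self_eq_one_iff.1 hr with h3 | h3
  · left
    rw [h2, h3, one_mul]
  · right
    rw [h2, h3, neg_one_mul]

theorem tor_sw {F : Type} [Field F] [Finite F] {σ : MulAut (PS F)} {a : Fˣ} {φ : F ≃+* F}
    (h : SwF σ a φ) (t : Fˣ) : σ (torHH F t) = torHH F (Units.map (φ : F →* F) t)⁻¹ := by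
  refine h (hh t) (hh (Units.map (φ : F →* F) t)⁻¹) ?_ ?_ ?_ ?_
  · change (((Units.map (φ : F →* F) t)⁻¹ : Fˣ) : F) = φ ((t⁻¹ : Fˣ) : F)
    rw [← map_inv]
    rfl
  · change (0 : F) = a * φ 0
    rw [map_zero, mul_zero]
  · change (0 : F) = _ * φ 0
    rw [map_zero, mul_zero]
  · change ((((Units.map (φ : F →* F) t)⁻¹)⁻¹ : Fˣ) : F) = φ (t : F)
    rw [inv_inv]
    rfl

theorem tor_ee {F : Type} [Field F] [Finite F] (c : Fˣ) (ψ : F ≃+* F) (t : Fˣ) :
    ee c ψ (torHH F t) = torHH F (Units.map (ψ : F →* F) t) := by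
  rw [torHH_apply, ee_pr, torHH_apply]
  congr 1
  rw [EE_apply]
  unfold hh
  apply mk2_congr
  · rfl
  · change (c : F) * ψ 0 = 0
    rw [map_zero, mul_zero]
  · change _ * ψ 0 = (0 : F)
    rw [map_zero, mul_zero]
  · change ψ ((t⁻¹ : Fˣ) : F) = (((Units.map (ψ : F →* F) t)⁻¹ : Fˣ) : F)
    rw [← map_inv]
    rfl

theorem tor_thm (hSWP : SWPStmt) (hILM : ILMStmt) (hSAB : SABStmt) : TORStmt := by
  intro F _ _ i m σ a φ h2 hi hall hsw hm hσ hφ
  obtain ⟨c, -, hc⟩ := hSWP F σ a φ hsw (2 ^ (m - 1))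
  have hpw : 2 * 2 ^ (m - 1) = 2 ^ m := by
    rw [← pow_succ']
    congr 1
    omega
  rw [hpw] at hc
  obtain ⟨ψ, hψ⟩ : ∃ ψ : F ≃+* F, φ ^ (2 ^ m) = ψ := ⟨_, rfl⟩
  rw [hψ] at hc hφ
  have hstep : ∀ t : Fˣ, (σ ^ (2 ^ m)) (torHH F t) = torHH F (Units.map (ψ : F →* F) t) := by
    intro t
    rw [hc, tor_ee]
  have hψ2 : ψ * ψ = 1 := by
    refine eq_one_of_sign _ fun t => ?_
    by_cases ht : t = 0
    · left
      rw [ht, map_zero]
    · obtain ⟨u, hu⟩ : ∃ u : Fˣ, (u : F) = t := ⟨Units.mk0 t ht, rfl⟩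
      have h1 : (σ ^ (2 ^ (m + 1))) (torHH F u) =
          torHH F (Units.map (ψ : F →* F) (Units.map (ψ : F →* F) u)) := by
        rw [pow_succ, mul_two, pow_add, MulAut.mul_apply, hstep, hstep]
      rw [hσ, MulAut.one_apply] at h1
      have h3 := torHH_eq h1
      rw [← hu]
      exact h3
  obtain ⟨t, ht1, ht2⟩ : ∃ t : F, ψ t ≠ t ∧ ψ t ≠ -t := by
    by_contra h
    push Not at h
    exact hφ (eq_one_of_sign ψ fun t => by
      by_cases h1 : ψ t = t
      · left; exact h1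
      · right; exact h t h1)
  have ht0 : t ≠ 0 := by
    rintro rfl
    exact ht1 (map_zero ψ)
  obtain ⟨u, hu⟩ : ∃ u : Fˣ, (u : F) = t := ⟨Units.mk0 t ht0, rfl⟩
  refine hSAB (PS F) 2 m σ (torHH F).range Nat.prime_two ?_ ?_
    ⟨torHH F u, ⟨u, rfl⟩, fun k hk => ?_⟩
  · rintro _ ⟨x, rfl⟩ _ ⟨y, rfl⟩
    rw [← map_mul, ← map_mul, mul_comm]
  · intro x
    constructor
    · rintro ⟨s, rfl⟩
      exact ⟨_, (tor_sw hsw s).symm⟩
    · rintro ⟨s, hs⟩
      refine ⟨(Units.map (φ.symm : F →* F) s)⁻¹, σ.injective ?_⟩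
      rw [tor_sw hsw, ← hs]
      congr 1
      rw [map_inv, inv_inv]
      refine Units.ext ?_
      change φ (φ.symm (s : F)) = s
      exact φ.apply_symm_apply _
  · rw [hstep, ← map_inv, ← map_mul, ← map_pow, ← map_one (torHH F)] at hk
    obtain ⟨z, hz⟩ : ∃ z : Fˣ, Units.map (ψ : F →* F) u * u⁻¹ = z := ⟨_, rfl⟩
    rw [hz] at hk
    have h1 : (z : F) ^ (2 ^ (k + 1)) = 1 := by
      have h3 := torHH_eq hk
      rw [Units.val_one, Units.val_pow_eq_pow_val] at h3
      rw [pow_succ, pow_mul]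
      rcases h3 with h3 | h3
      · rw [← h3, one_pow]
      · rw [← neg_eq_iff_eq_neg.2 h3]
        norm_num
    have h4 : (z : F) * t = ψ t := by
      have h5 : z * u = Units.map (ψ : F →* F) u := by rw [← hz, inv_mul_cancel_right]
      have h6 := congrArg Units.val h5
      rw [Units.val_mul, hu] at h6
      rw [h6]
      change ψ (u : F) = ψ t
      rw [hu]
    have h5 : ψ (z : F) * z = 1 := by
      have h6 : ψ (ψ t) = t := congrArg (fun f : F ≃+* F => f t) hψ2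
      rw [← h4, map_mul, ← h4, ← mul_assoc] at h6
      exact mul_right_cancel₀ ht0 (h6.trans (one_mul t).symm)
    rcases hILM F ψ i z (k + 1) h2 hi (hall ψ) h5 h1 with h6 | h6
    · rw [h6, one_mul] at h4
      exact ht1 h4.symm
    · rw [h6, neg_one_mul] at h4
      exact ht2 h4.symm

end Pool.ENR
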